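import Pool.Agent.Helper65.FC.FRAT

/-!
Entire curves in the projective varieties with a finite morphism or a generically finite rational map
to a Fermat cover of a projective space, in all dimensions, in the borderline case of Cartan's
theorem.
-/

set_option autoImplicit false

open Filter Topology MvPolynomial LinearAlgebra.Projectivization Pool.Agent.W602.GT
  Pool.Agent.N155 Pool.Agent.N155.BB Pool.Agent.Helper65.BF Pool.Agent.Helper65.GG
  Pool.Agent.Helper65.HD Pool.Agent.Helper65.FC

namespace Pool.Agent.Results.MP_2a5ae2_ag.FermatCoversAllDimensions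

/-- Let `2 ≤ N` and `(n - N) (d - N) = N (N + 1)` (equality in Cartan's inequality), and let
`ℓ 0, …, ℓ n` be linear forms in `N + 1` variables, any `N + 1` of them linearly independent.
The forms `∑ c l * X l ^ d`, for the relations `∑ c l • ℓ l = 0`, define a smooth projective variety
`X` of dimension `N` in `ℙ^n` (the cover of `ℙ^N` given by `X l ^ d = ℓ l`).

(1) Let `2 N ≤ n`, that is, `d ≤ 2 N + 1` (for example, `d = N + 1` and `n = N (N + 2)`, or
`d = 2 N` and `n = 2 N + 1`, or `d = 2 N + 1` and `n = 2 N`). There is a finite set `S` of nonconstant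
maps from elliptic curves to `X` such that:

(a) there are forms which vanish along the curves in `S` and do not vanish identically on `X` near
any of its points;

(b) if a projective variety `Y` has a rational map to `X` which is defined and has finite fibres
outside a hypersurface `{Q₀ = 0}`, every nonconstant entire curve in `Y` lies in this hypersurface, or
its image in `X` is the composition of an entire function and a curve in `S`; if the rational map is
dominant, all nonconstant entire curves in `Y` lie in a hypersurface which does not contain `Y`;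

(c) if a projective variety `Y` has a finite morphism to `X`, with arbitrary singularities and
ramification (for example, `Y = X`; or a closed set `Y` in a projective space on which forms
`G 0, …, G n` of the same degree, without common zeros on `Y`, satisfy the equations
`∑ c l * (G l) ^ d = 0`), there is a finite set `S'` of nonconstant maps from elliptic curves to `Y`
such that every nonconstant entire curve in `Y`, without any condition on its growth, is the
composition of an entire function and a curve in `S'`.

For `Y = X` the condition `2 N ≤ n` is necessary: otherwise, `X` contains lines.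

More generally, for all `n`, this holds for the varieties `Y` with such a map to a closed subset `V` of
`X` if the entire curves of bounded derivative in `V` which lie over hyperplanes of `ℙ^N` are
constant. For `n = 3` (`N = 2`, `d = 8`: the Fermat surface of degree eight) it is sufficient that `V`
contains no line of `X`.

(2) The entire curves of bounded derivative in `X` are doubly periodic or lie over hyperplanes of
`ℙ^N`; the second case can occur for nonconstant curves only if `n < 2 N`, and, if `N = 2`, only for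
curves in lines of `X`. -/
theorem result (N n d : ℕ) (hN : 2 ≤ N) (hnd : (n - N) * (d - N) = N * (N + 1))
    (ℓ : Fin (n + 1) → Fin (N + 1) → ℂ) (hℓ : GeneralPosition ℓ) :
    ProjManifold (fermatForms ℓ d) N ∧
    (∀ V : Set (Fin (n + 1) → ℂ), ClosedCone V → V ⊆ Cone (fermatForms ℓ d) →
      (2 * N ≤ n ∨
        (n = 3 ∧ ∀ P Q, Line (fermatForms ℓ d) P Q →
          ∃ s t : ℂ, s • P + t • Q ≠ 0 ∧ s • P + t • Q ∉ V) ∨
        ∀ f, CurveIn V f → ∀ C : ℝ, DerBetween 0 C f → OverHyperplane ℓ d f →
          ∀ z w, f z = f w) →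
      ∃ S : Finset (ℂ → ℙ ℂ (Fin (n + 1) → ℂ)),
        (∀ g ∈ S, CurveIn V g ∧ DoublyPeriodic g ∧ ¬ ∀ z w, g z = g w) ∧
        (∀ x ∈ Cone (fermatForms ℓ d), ∃ P : MvPolynomial (Fin (n + 1)) ℂ, IsForm P ∧
          (∃ᶠ y in 𝓝 x, y ∈ Cone (fermatForms ℓ d) ∧ eval y P ≠ 0) ∧
          ∀ g ∈ S, ∀ z, eval (g z).rep P = 0) ∧
        (∀ (m e q : ℕ) (Y : Set (Fin (m + 1) → ℂ))
          (G : Fin (n + 1) → MvPolynomial (Fin (m + 1)) ℂ) (Q₀ : MvPolynomial (Fin (m + 1)) ℂ),
          RationalMap Y V e q G Q₀ →
            (∀ f, CurveIn Y f → (¬ ∀ z w, f z = f w) → (∀ z, eval (f z).rep Q₀ = 0) ∨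
              ∃ g ∈ S, ∃ h : ℂ → ℂ, Differentiable ℂ h ∧ ∀ z, eval (f z).rep Q₀ ≠ 0 →
                ∃ c : ℂ, c ≠ 0 ∧ (fun i => eval (f z).rep (G i)) = c • (g (h z)).rep) ∧
            (Dominant Y (Cone (fermatForms ℓ d)) G Q₀ →
              ∃ Q : MvPolynomial (Fin (m + 1)) ℂ, IsForm Q ∧ (∃ y ∈ Y, eval y Q ≠ 0) ∧
                ∀ f, CurveIn Y f → (¬ ∀ z w, f z = f w) → ∀ z, eval (f z).rep Q = 0)) ∧
        ∀ (m e : ℕ) (Y : Set (Fin (m + 1) → ℂ)) (G : Fin (n + 1) → MvPolynomial (Fin (m + 1)) ℂ),
          FiniteMorphism Y V e G →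
            ∃ S' : Finset (ℂ → ℙ ℂ (Fin (m + 1) → ℂ)),
              (∀ g ∈ S', CurveIn Y g ∧ DoublyPeriodic g ∧ ¬ ∀ z w, g z = g w) ∧
              ∀ f, CurveIn Y f → (¬ ∀ z w, f z = f w) →
                ∃ g ∈ S', ∃ h : ℂ → ℂ, Differentiable ℂ h ∧ ∀ z, f z = g (h z)) ∧
    (n < 2 * N → ∃ P Q, Line (fermatForms ℓ d) P Q) ∧
    ∀ f, HolIn (fermatForms ℓ d) f → ∀ C : ℝ, DerBetween 0 C f → DoublyPeriodic f ∨
      (n < 2 * N ∧ OverHyperplane ℓ d f ∧ (N = 2 → ∃ P Q : Fin (n + 1) → ℂ,
        Line (fermatForms ℓ d) P Q ∧ ∀ z, ∃ s t : ℂ, (f z).rep = s • P + t • Q)) := by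
  have hpos : 0 < N * (N + 1) := by positivity
  obtain ⟨m, hm⟩ : ∃ m, n = m + N := ⟨n - N, by
    have : n - N ≠ 0 := by
      intro h
      rw [h, zero_mul] at hnd
      omega
    omega⟩
  obtain ⟨e, he⟩ : ∃ e, d = e + N := ⟨d - N, by
    have : d - N ≠ 0 := by
      intro h
      rw [h, mul_zero] at hnd
      omega
    omega⟩
  subst hm he
  have hme : m * e = N * (N + 1) := by simpa using hnd
  have D : Dat (m + N) N m e ℓ := ⟨hℓ, hN, rfl, hme⟩
  refine ⟨D.man, fun V hV hVX hcase => ?_, fun h => exists_line hℓ (by omega) (by omega)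
    (by omega), fun f hf C hb => ?_⟩
  · have key : FER.MatForms (fermatForms ℓ (e + N)) V := by
      rcases hcase with h1 | h1 | h1
      · refine FER.closed_mat D hV hVX fun f hf C hb ho => ?_
        exact const_over D (by omega) ⟨hf.1, fun z => hVX (hf.2 z)⟩ hb ho
      · obtain ⟨h1, h2⟩ := h1
        have hN2 : N = 2 := by
          have hm1 : m ≠ 0 := by
            rintro rfl
            omega
          omega
        subst hN2
        exact FER.plane_mat hℓ hme hV hVX fun _ => h2
      · exact FER.closed_mat D hV hVX h1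
    obtain ⟨S0, c0, hS0, hf0⟩ := key
    have hV0 : ∀ x ∈ V, x ≠ 0 := fun x hx => (hVX hx).1
    obtain ⟨S, h1, h2, h3⟩ := FER.cover_gen hVX (finite_id hV hV0) hS0 hf0
    have h3' : ∀ x ∈ Cone (fermatForms ℓ (e + N)), ∃ P : MvPolynomial (Fin (m + N + 1)) ℂ,
        IsForm P ∧ (∃ᶠ y in 𝓝 x, y ∈ Cone (fermatForms ℓ (e + N)) ∧ eval y P ≠ 0) ∧
          ∀ g ∈ S, ∀ z, eval (g z).rep P = 0 := by
      intro x hx
      obtain ⟨P, hP1, hP2, hP3⟩ := h3 x hx
      refine ⟨P, hP1, hP2, fun g hg z => ?_⟩
      have h4 := hP3 g hg z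
      have h5 : (fun i => eval (g z).rep (X i : MvPolynomial (Fin (m + N + 1)) ℂ)) = (g z).rep := by
        funext i
        rw [eval_X]
      rw [h5] at h4
      exact h4
    refine ⟨S, h1, h3', fun m' e' q Y G Q₀ hR => ?_, fun m' e' Y G hG => ?_⟩
    · have h4 := fun f hf hne => rational_of EXT.main UNC.main hV hV0 h2 hR (f := f) hf hne
      exact ⟨h4, fun hdom => dominant_form hR h4 h3' hdom⟩
    · obtain ⟨S', h4, h5, -⟩ := FER.cover_gen hVX hG hS0 hf0
      exact ⟨S', h4, h5⟩
  · rcases brody_all D hf hb with h1 | h1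
    · exact Or.inl h1
    · by_cases hNm : N ≤ m
      · exact Or.inl (periodic_const (const_over D hNm hf hb h1))
      · by_cases hN2 : N = 2
        · subst hN2
          have hm' : m = 1 := by
            have hm1 : m ≠ 0 := by
              rintro rfl
              omega
            omega
          subst hm'
          have he' : e = 6 := by omega
          subst he'
          rcases periodic_or_line hℓ hf hb with h2 | h2
          · exact Or.inl h2
          · exact Or.inr ⟨by omega, h1, fun _ => h2⟩
        · exact Or.inr ⟨by omega, h1, fun h => absurd h hN2⟩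

end Pool.Agent.Results.MP_2a5ae2_ag.FermatCoversAllDimensions
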