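import Pool.Agent.Helper6.EE.Fin

/-!
# Nested elliptic entire curves

An entire curve in a projective variety `X` is called nested elliptic if, near some point, it has
homogeneous coordinates which are built from the constants and `z` by addition, multiplication,
division, the exponential function and the Weierstrass functions `℘`, `℘'` of arbitrary lattices, in
any order and nested to any depth, or which are built from such functions by addition,
multiplication, division, integration and Weierstrass functions of arbitrary lattices. Examples are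
the curves with the coordinates `exp (℘₁ (exp z))`, `℘₂ (℘₁ z + exp (exp z))`, `ζ (exp z)`,
`℘₃ (∫ exp (z ^ 2))`. We show that `X` contains a Zariski-dense nested elliptic entire curve if and
only if `X` is dominated by a product of a projective space and elliptic curves. Then `X` is
covered by rational curves or is dominated by a product of elliptic curves, its Kodaira dimension
is at most zero, and in particular it is not of general type.
-/

set_option autoImplicit false

namespace Pool.Agent.Results.MP_2a5ae2_ag.NestedEllipticCurves

open Filter MvPolynomial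
open scoped LinearAlgebra.Projectivization PeriodPair
open Pool.Agent.TH143.EL (HolMap InV Rep)
open Pool.Agent.TH143.GT (Covered FunField)
open Pool.Agent.W602.GT (GeneralType)
open Pool.Agent.E8helper4.EL (ZariskiDense iterExp)
open Pool.Agent.Helper6.EE

variable {N : ℕ}

/-- Let `X` be the projective variety with the ideal `p`, the function field `K`, the generic point
`y` and the dimension `w`.

(1) `X` contains a Zariski-dense nested elliptic entire curve if and only if `X` is dominated by a
product of a projective space and elliptic curves.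

(2) In this case `X` contains a Zariski-dense entire curve whose homogeneous coordinates are
polynomials in the functions `e₀, ..., e_{a-1}`, `℘_{Λ j} (e_{a+j})`, `℘'_{Λ j} (e_{a+j})`, where
`e₀ = z`, `e₁ = exp z`, `e₂ = exp (exp z)`, ...

(3) If `w` is positive and `X` contains a Zariski-dense nested elliptic entire curve, then `X` is
covered by rational curves or dominated by a product of elliptic curves, two pluricanonical forms of
the same weight on `X` are proportional, and `X` is not of general type. -/
theorem result (p : Ideal (MvPolynomial (Fin (N + 1)) ℂ)) (K : Type) [Field K] [Algebra ℂ K]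
    (w : ℕ) (y : Fin (N + 1) → K) (hy : FunField p 1 K w y) :
    ((∃ f : ℂ → ℙ ℂ (Fin (N + 1) → ℂ), HolMap f ∧ (∀ z, InV p (f z)) ∧ ZariskiDense p f ∧
      NestedElliptic f) ↔ ∃ a b : ℕ, DomBy a b K) ∧
    ((∃ a b : ℕ, DomBy a b K) → ∃ f : ℂ → ℙ ℂ (Fin (N + 1) → ℂ), HolMap f ∧ (∀ z, InV p (f z)) ∧
      ZariskiDense p f ∧ ∃ (a b : ℕ) (Λ : Fin b → PeriodPair)
        (P : Fin (N + 1) → MvPolynomial (Fin a ⊕ (Fin b ⊕ Fin b)) ℂ),
        ∀ᶠ z in codiscrete ℂ, Rep (f z) fun j => eval (Sum.elim (fun i : Fin a => iterExp i z)
          (Sum.elim (fun i : Fin b => ℘[Λ i] (iterExp (a + i) z))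
            (fun i : Fin b => ℘'[Λ i] (iterExp (a + i) z)))) (P j)) ∧
    (0 < w → (∃ f : ℂ → ℙ ℂ (Fin (N + 1) → ℂ), HolMap f ∧ (∀ z, InV p (f z)) ∧
      ZariskiDense p f ∧ NestedElliptic f) →
      (Covered K ∨ ∃ b : ℕ, DomBy 0 b K) ∧ KodairaLeZero K w ∧ ¬ GeneralType ℂ K w) := by
  have h1 : (∃ f : ℂ → ℙ ℂ (Fin (N + 1) → ℂ), HolMap f ∧ (∀ z, InV p (f z)) ∧ ZariskiDense p f ∧
      NestedElliptic f) ↔ ∃ a b : ℕ, DomBy a b K := by
    constructor
    · rintro ⟨f, hf, hX, hd, hel⟩
      exact dom_of_curve hy hf hX hd hel
    · intro hU
      obtain ⟨f, hf, hX, hd, hel, -⟩ := exists_curve hy hU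
      exact ⟨f, hf, hX, hd, hel⟩
  refine ⟨h1, fun hU => ?_, fun hw hc => ?_⟩
  · obtain ⟨f, hf, hX, hd, -, a, b, Λ, P, hP⟩ := exists_curve hy hU
    refine ⟨f, hf, hX, hd, a, b, Λ, P, ?_⟩
    filter_upwards [hP] with z hz
    have e : (fun s => gF a Λ s z) = Sum.elim (fun i : Fin a => iterExp i z)
          (Sum.elim (fun i : Fin b => ℘[Λ i] (iterExp (a + i) z))
            (fun i : Fin b => ℘'[Λ i] (iterExp (a + i) z))) := by
      funext s
      rcases s with i | i | i <;> rfl
    rw [← e]
    exact hz
  · have hU : DomProd K := h1.1 hc
    have hk := DomProd.kod hy hw hU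
    exact ⟨DomProd.dich hU, hk, not_general hw hk⟩

end Pool.Agent.Results.MP_2a5ae2_ag.NestedEllipticCurves
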