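import Pool.Agent.Helper65.FC.RAT

/-!
Entire curves in projective varieties with a finite morphism or a generically finite rational map to
a projective manifold with a pseudometric of nonpositive curvature or with invariant jet
differentials.
-/

set_option autoImplicit false

open Filter Topology MvPolynomial LinearAlgebra.Projectivization Pool.Agent.W602.GT
  Pool.Agent.N155 Pool.Agent.N155.BB Pool.Agent.Helper65.GG Pool.Agent.Helper65.NC
  Pool.Agent.Helper65.FC

namespace Pool.Agent.Results.MP_2a5ae2_ag.NonpositiveCurvature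

/-- Let `X = {F = 0}` be a projective manifold of dimension `d` whose 2-forms are positive outside
the algebraic set `{Z = 0}` (for example, `Λ² Ω` ample and `Z` empty; if `d = 2`: `X` is a surface of
general type). Let a pseudometric of nonpositive curvature be given on the tangent vectors of `X` or,
more generally, on the jets of some positive order of the holomorphic curves in `X` (`JetMetric`): for
example, a Hermitian or a complex Finsler metric of nonpositive holomorphic sectional curvature; or
let finitely many invariant jet differentials on `X` be given, with values in the trivial line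
bundle. Let `W` be a closed subset of `X` (for example, `X` itself) such that an entire curve of
bounded derivative in `W` is constant if it has length zero (if it is annihilated by all the given
jet differentials) or lies in `{Z = 0}`.

Then there is a finite set `S` of nonconstant holomorphic maps from elliptic curves to `W` with the
following properties.

(1) If `2 ≤ d`, there are forms which vanish along the curves in `S` and do not vanish identically on
`X` near any given point.

(2) Let `Y` be a projective variety with a rational map to `W`, given by the forms `G 0, …, G n`, which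
is defined and has finite fibres outside the hypersurface `{Q₀ = 0}`. Every nonconstant entire curve
`f` in `Y` lies in `{Q₀ = 0}`, or the image of `f` under the rational map is the composition of an
entire function and one of the curves in `S`. If `2 ≤ d` and the rational map is dominant to `X`, all
nonconstant entire curves in `Y` lie in a hypersurface which does not contain `Y` (the conclusion of
the Green–Griffiths–Lang conjecture for `Y`).

(3) Let `Y` be a projective variety with a finite morphism to `W`, with arbitrary singularities and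
arbitrary ramification (for example, `Y = W`). There is a finite set `S'` of nonconstant holomorphic
maps from elliptic curves to `Y` such that every nonconstant entire curve in `Y` is the composition
of an entire function and one of the maps in `S'`. -/
theorem result {n d : ℕ} {ι ι' κ : Type} (F : ι → MvPolynomial (Fin (n + 1)) ℂ)
    (Z : ι' → MvPolynomial (Fin (n + 1)) ℂ)
    (η : κ → (Fin (n + 1) → ℂ) → (Fin (n + 1) → ℂ) → (Fin (n + 1) → ℂ) → ℂ)
    (null : (ℂ → ℙ ℂ (Fin (n + 1) → ℂ)) → Prop) (W : Set (Fin (n + 1) → ℂ))
    (hX : ProjManifold F d) (hZ : ∀ i, IsForm (Z i))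
    (hη : PositiveTwoForms (Cone F) (Cone Z) d η) (hN : NullCurves (Cone F) null)
    (hW : ClosedCone W) (hWX : W ⊆ Cone F)
    (hnd : ∀ f, CurveIn W f → ∀ C : ℝ, DerBetween 0 C f →
      (null f ∨ CurveIn (Cone Z) f) → ∀ z w, f z = f w) :
    ∃ S : Finset (ℂ → ℙ ℂ (Fin (n + 1) → ℂ)),
      (∀ g ∈ S, CurveIn W g ∧ DoublyPeriodic g ∧ ¬ ∀ z w, g z = g w) ∧
      (2 ≤ d → ∀ x ∈ Cone F, ∃ P : MvPolynomial (Fin (n + 1)) ℂ, IsForm P ∧
        (∃ᶠ y in 𝓝 x, y ∈ Cone F ∧ eval y P ≠ 0) ∧ ∀ g ∈ S, ∀ z, eval (g z).rep P = 0) ∧
      (∀ (m e q : ℕ) (Y : Set (Fin (m + 1) → ℂ))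
        (G : Fin (n + 1) → MvPolynomial (Fin (m + 1)) ℂ) (Q₀ : MvPolynomial (Fin (m + 1)) ℂ),
        RationalMap Y W e q G Q₀ →
          (∀ f, CurveIn Y f → (¬ ∀ z w, f z = f w) → (∀ z, eval (f z).rep Q₀ = 0) ∨
            ∃ g ∈ S, ∃ h : ℂ → ℂ, Differentiable ℂ h ∧ ∀ z, eval (f z).rep Q₀ ≠ 0 →
              ∃ c : ℂ, c ≠ 0 ∧ (fun i => eval (f z).rep (G i)) = c • (g (h z)).rep) ∧
          (2 ≤ d → Dominant Y (Cone F) G Q₀ →
            ∃ Q : MvPolynomial (Fin (m + 1)) ℂ, IsForm Q ∧ (∃ y ∈ Y, eval y Q ≠ 0) ∧
              ∀ f, CurveIn Y f → (¬ ∀ z w, f z = f w) → ∀ z, eval (f z).rep Q = 0)) ∧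
      ∀ (m e : ℕ) (Y : Set (Fin (m + 1) → ℂ)) (G : Fin (n + 1) → MvPolynomial (Fin (m + 1)) ℂ),
        FiniteMorphism Y W e G →
          ∃ S' : Finset (ℂ → ℙ ℂ (Fin (m + 1) → ℂ)),
            (∀ g ∈ S', CurveIn Y g ∧ DoublyPeriodic g ∧ ¬ ∀ z w, g z = g w) ∧
            ∀ f, CurveIn Y f → (¬ ∀ z w, f z = f w) →
              ∃ g ∈ S', ∃ h : ℂ → ℂ, Differentiable ℂ h ∧ ∀ z, f z = g (h z) := by
  obtain ⟨S, h1, h2, h3⟩ := entire_null hX hZ hη hN hW hWX hnd
  refine ⟨S, h1, h3, fun m e q Y G Q₀ hR => ?_, fun m e Y G hG => ?_⟩
  · have h4 := fun f hf hne => rational_of EXT.main UNC.main hW (fun x hx => (hWX hx).1) h2 hR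
      (f := f) hf hne
    exact ⟨h4, fun hd hdom => dominant_form hR h4 (h3 hd) hdom⟩
  · obtain ⟨S', h4, h5, -⟩ := entire_cover hX hZ hη hN hW hWX hnd hG
    exact ⟨S', h4, h5⟩

end Pool.Agent.Results.MP_2a5ae2_ag.NonpositiveCurvature
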