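import Pool.Agent.Helper6.EU.Cur

/-!
# Nested elliptic curves of bounded complexity

The nested elliptic curves of complexity at most `(s, n)` are the holomorphic curves in projective
space which near some point have homogeneous coordinates which are built by at most `n` nested
additions, multiplications, divisions, integrations and Weierstrass functions from functions which
are built by at most `s` nested additions, multiplications, divisions, exponentials and Weierstrass
functions from `z` and constants. All constants and all lattices are allowed, so these are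
infinite-dimensional families of curves. We show that in a projective variety `X` which is of
general type, or which is covered neither by rational nor by elliptic curves, all nonconstant curves
of this kind lie in one proper closed subset, which depends only on `X`, `s` and `n`. In an arbitrary
projective variety, those outside one proper closed subset are contracted by the pluricanonical
maps.
-/

set_option autoImplicit false

namespace Pool.Agent.Results.MP_2a5ae2_ag.UniformNestedElliptic

open Filter MvPolynomial Topology
open scoped LinearAlgebra.Projectivization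
open Pool.Agent.TH143.EL (HolMap InV Rep)
open Pool.Agent.TH143.GT (Covered FunField Pluricanonical)
open Pool.Agent.W602.GT (GeneralType IsForm)
open Pool.Agent.Helper6.EE (NestedElliptic)
open Pool.Agent.Helper6.EU

variable {N : ℕ}

/-- Let `X` be the projective variety with the ideal `p`, the function field `K`, the generic point
`y` and the dimension `w > 0`.

(1) If `X` is of general type, or if `X` is covered neither by rational nor by elliptic curves, then
for all `s`, `n` there is a form `G` which does not vanish on `X`, but which vanishes on all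
nonconstant germs of curves in `X` of complexity at most `(s, n)`, and on all nonconstant entire
curves in `X` which are nested elliptic of complexity at most `(s, n)`.

(2) Let `ω₁`, `ω₂` be two pluricanonical forms of the same weight on `X`, and let `A / B` be their
quotient, where `A` and `B` are forms of the same degree. Then for all `s`, `n` there is a form `G`
which does not vanish on `X`, such that `A / B` is constant on all germs of curves in `X` of
complexity at most `(s, n)` on which `G` does not vanish.

(3) Each nested elliptic map has some complexity. -/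
theorem result (p : Ideal (MvPolynomial (Fin (N + 1)) ℂ)) (K : Type) [Field K] [Algebra ℂ K]
    (w : ℕ) (y : Fin (N + 1) → K) (hy : FunField p 1 K w y) (hw : 0 < w) :
    (GeneralType ℂ K w ∨ (¬ Covered K ∧ ¬ CoveredEll K) → ∀ s n : ℕ,
      ∃ G : MvPolynomial (Fin (N + 1)) ℂ, IsForm G ∧ G ∉ p ∧
        (∀ (z0 : ℂ) (h : Fin (N + 1) → ℂ → ℂ), (∀ j, IntEllD s z0 n (h j)) → GermIn p z0 h →
          ¬ ConstGerm z0 h → ∀ᶠ z in 𝓝 z0, eval (fun j => h j z) G = 0) ∧
        (∀ f : ℂ → ℙ ℂ (Fin (N + 1) → ℂ), HolMap f → (∀ z, InV p (f z)) →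
          (∃ z z', f z ≠ f z') → NestedEllipticD s n f → ∀ z, eval (f z).rep G = 0)) ∧
    (∀ m : ℕ, 0 < m → ∀ ω₁ ω₂ : (Fin w → Derivation ℂ K K) → K, Pluricanonical w m ω₁ →
      Pluricanonical w m ω₂ → ∀ Δ : Fin w → Derivation ℂ K K, ω₂ Δ ≠ 0 →
      ∀ (d : ℕ) (A B : MvPolynomial (Fin (N + 1)) ℂ), A.IsHomogeneous d → B.IsHomogeneous d →
      B ∉ p → aeval y A / aeval y B = ω₁ Δ / ω₂ Δ → ∀ s n : ℕ,
      ∃ G : MvPolynomial (Fin (N + 1)) ℂ, IsForm G ∧ G ∉ p ∧
        ∀ (z0 : ℂ) (h : Fin (N + 1) → ℂ → ℂ), (∀ j, IntEllD s z0 n (h j)) → GermIn p z0 h →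
          (¬ ∀ᶠ z in 𝓝 z0, eval (fun j => h j z) G = 0) →
          ∃ c : ℂ, ∀ᶠ z in 𝓝 z0, eval (fun j => h j z) A = c * eval (fun j => h j z) B) ∧
    (∀ f : ℂ → ℙ ℂ (Fin (N + 1) → ℂ), NestedElliptic f ↔ ∃ s n, NestedEllipticD s n f) := by
  refine ⟨fun hg s n => ?_, fun m hm ω₁ ω₂ hω₁ hω₂ Δ hΔ d A B hA hB hBp hAB s n => ?_,
    fun f => nested_iff⟩
  · obtain ⟨G, h1, h2, h3⟩ : ∃ G : MvPolynomial (Fin (N + 1)) ℂ, IsForm G ∧ G ∉ p ∧
        ∀ (z0 : ℂ) (h : Fin (N + 1) → ℂ → ℂ), (∀ j, IntEllD s z0 n (h j)) → GermIn p z0 h →
          ¬ ConstGerm z0 h → ∀ᶠ z in 𝓝 z0, eval (fun j => h j z) G = 0 := by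
      rcases hg with hg | ⟨hg1, hg2⟩
      · exact general hy hw hg s n
      · exact not_covered hy hg1 hg2 s n
    exact ⟨G, h1, h2, h3, fun f hf hX hnc hel => entire h1 h3 hf hX hnc hel⟩
  · obtain ⟨G, h1, h2, h3⟩ := pluri hy hw hm hω₁ hω₂ hΔ hA hB hBp hAB s n
    refine ⟨G, h1, h2, fun z0 h h4 h5 h6 => ?_⟩
    by_contra hcon
    exact h6 (h3 z0 h h4 h5 hcon)

end Pool.Agent.Results.MP_2a5ae2_ag.UniformNestedElliptic
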